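import Pool.Agent.V8H27.GC.L

/-!
# Homology of a complex and of its image under an order embedding of the vertices
-/

set_option autoImplicit false
set_option linter.unusedSectionVars false

noncomputable section

namespace Pool.Agent.V8H66.GC

open Pool.Agent.W907.SG Pool.Agent.V8H27.GC

variable {F : Type} [Field F] {V W : Type}

/-- the image of a family of faces -/
def im (f : V ↪ W) (K : Set (Finset V)) : Set (Finset W) := {T | ∃ s ∈ K, T = s.map f}

theorem map_mem_im {f : V ↪ W} {K : Set (Finset V)} {s : Finset V} : s.map f ∈ im f K ↔ s ∈ K := by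
  constructor
  · rintro ⟨t, ht, h⟩
    rwa [Finset.map_injective f h]
  · intro h
    exact ⟨s, h, rfl⟩

/-- the pullback of chains -/
def pull (f : V ↪ W) : (Finset W → F) →ₗ[F] (Finset V → F) where
  toFun c s := c (s.map f)
  map_add' _ _ := rfl
  map_smul' _ _ := rfl

theorem pull_apply (f : V ↪ W) (c : Finset W → F) (s : Finset V) : pull (F := F) f c s = c (s.map f) := rfl

open Classical in
/-- the extension of chains by zero -/
def ext (f : V ↪ W) (c : Finset V → F) (T : Finset W) : F := if h : ∃ s : Finset V, s.map f = T then c h.choose else 0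

theorem ext_map (f : V ↪ W) (c : Finset V → F) (s : Finset V) : ext f c (s.map f) = c s := by
  unfold ext
  have h : ∃ t : Finset V, t.map f = s.map f := ⟨s, rfl⟩
  rw [dif_pos h]
  congr 1
  exact Finset.map_injective f h.choose_spec

theorem ext_not (f : V ↪ W) (c : Finset V → F) {T : Finset W} (h : ¬ ∃ s : Finset V, s.map f = T) :
    ext f c T = 0 := dif_neg h

theorem pull_ext (f : V ↪ W) (c : Finset V → F) : pull f (ext f c) = c := by
  funext s
  exact ext_map f c s

variable [Fintype V] [LinearOrder V] [Fintype W] [LinearOrder W]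

/-- an isomorphism of the homology of families of faces on different sets of vertices -/
def HIso (F : Type) [Field F] {V W : Type} [Fintype V] [LinearOrder V] [Fintype W] [LinearOrder W]
    (D : Set (Finset W)) (i : ℕ) (D' : Set (Finset V)) (j : ℕ) : Prop :=
  ∃ φ : (Finset W → F) →ₗ[F] (Finset V → F), (∀ c, Cyc D i c → Cyc D' j (φ c)) ∧
    (∀ c, Cyc D i c → (Bdy D' j (φ c) ↔ Bdy D i c)) ∧ ∀ c', Cyc D' j c' → ∃ c, Cyc D i c ∧ Bdy D' j (c' - φ c)

theorem HIso.symm0 {D : Set (Finset W)} {D' : Set (Finset V)} {i j : ℕ} (h : HIso F D i D' j) :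
    H0 F D i ↔ H0 F D' j := by
  obtain ⟨φ, h1, h2, h3⟩ := h
  constructor
  · intro h0 c' hc'
    obtain ⟨c, hc, hb⟩ := h3 c' hc'
    have h4 := hb.add ((h2 c hc).2 (h0 c hc))
    rwa [sub_add_cancel] at h4
  · intro h0 c hc
    exact (h2 c hc).1 (h0 _ (h1 c hc))

theorem HIso.symm1 {D : Set (Finset W)} {D' : Set (Finset V)} {i j : ℕ} (h : HIso F D i D' j) :
    H1 F D i ↔ H1 F D' j := by
  obtain ⟨φ, h1, h2, h3⟩ := h
  constructor
  · rintro ⟨z, hz, hnz, hall⟩
    refine ⟨φ z, h1 z hz, fun hb => hnz ((h2 z hz).1 hb), fun c' hc' => ?_⟩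
    obtain ⟨c, hc, hb⟩ := h3 c' hc'
    obtain ⟨a, ha⟩ := hall c hc
    refine ⟨a, ?_⟩
    have h4 := (h2 _ (hc.sub (hz.smul a))).2 ha
    rw [map_sub, map_smul] at h4
    have h5 := hb.add h4
    rwa [sub_add_sub_cancel] at h5
  · rintro ⟨z', hz', hnz, hall⟩
    obtain ⟨z, hz, hb⟩ := h3 z' hz'
    refine ⟨z, hz, fun hbz => hnz ?_, fun c hc => ?_⟩
    · have h4 := hb.add ((h2 z hz).2 hbz)
      rwa [sub_add_cancel] at h4
    · obtain ⟨a, ha⟩ := hall _ (h1 c hc)
      refine ⟨a, (h2 _ (hc.sub (hz.smul a))).1 ?_⟩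
      rw [map_sub, map_smul]
      have h4 := ha.add (hb.smul a)
      rwa [smul_sub, sub_add_sub_cancel] at h4

theorem sg_map (f : V ↪o W) (v : V) (s : Finset V) : sg (f v) (s.map f.toEmbedding) = sg v s := by
  unfold sg
  congr 1
  rw [Finset.filter_map, Finset.card_map]
  congr 1
  ext u
  simp

theorem bd_map (f : V ↪o W) {e : Finset W → F} (he : ∀ T, (¬ ∃ s : Finset V, s.map f.toEmbedding = T) → e T = 0)
    (s : Finset V) : bd F e (s.map f.toEmbedding) = bd F (pull f.toEmbedding e) s := by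
  rw [bd_apply, bd_apply]
  have h1 : ∑ v ∈ sᶜ, sg v s • (pull f.toEmbedding e) (insert v s) =
      ∑ w ∈ (sᶜ).map f.toEmbedding, sg w (s.map f.toEmbedding) • e (insert w (s.map f.toEmbedding)) := by
    rw [Finset.sum_map]
    refine Finset.sum_congr rfl fun v _ => ?_
    have e1 : f.toEmbedding v = f v := rfl
    rw [e1, sg_map, pull_apply, Finset.map_insert]
    rfl
  rw [h1]
  symm
  refine Finset.sum_subset ?_ ?_
  · intro w hw
    rw [Finset.mem_map] at hw
    obtain ⟨v, hv, rfl⟩ := hw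
    rw [Finset.mem_compl] at hv ⊢
    intro h2
    rw [Finset.mem_map'] at h2
    exact hv h2
  · intro w hw hw2
    rw [he, smul_zero]
    rintro ⟨t, ht⟩
    apply hw2
    have h3 : w ∈ t.map f.toEmbedding := by
      rw [ht]
      exact Finset.mem_insert_self _ _
    obtain ⟨v, hv, rfl⟩ := Finset.mem_map.1 h3
    refine Finset.mem_map_of_mem _ ?_
    rw [Finset.mem_compl] at hw ⊢
    intro h4
    exact hw (Finset.mem_map_of_mem _ h4)

theorem sup_im_zero {f : V ↪ W} {D : Set (Finset V)} {i : ℕ} {c : Finset W → F} (hc : Sup (im f D) i c) (T : Finset W)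
    (hT : ¬ ∃ s : Finset V, s.map f = T) : c T = 0 := by
  refine hc T ?_
  rintro ⟨⟨s, _, h⟩, _⟩
  exact hT ⟨s, h.symm⟩

theorem sup_pull {f : V ↪ W} {D : Set (Finset V)} {i : ℕ} {c : Finset W → F} (hc : Sup (im f D) i c) :
    Sup D i (pull f c) := by
  intro s hs
  rw [pull_apply]
  refine hc _ ?_
  rintro ⟨h1, h2⟩
  rw [map_mem_im] at h1
  rw [Finset.card_map] at h2
  exact hs ⟨h1, h2⟩

theorem sup_ext {f : V ↪ W} {D : Set (Finset V)} {i : ℕ} {c : Finset V → F} (hc : Sup D i c) :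
    Sup (im f D) i (ext f c) := by
  intro T hT
  by_cases h : ∃ s : Finset V, s.map f = T
  · obtain ⟨s, rfl⟩ := h
    rw [ext_map]
    refine hc _ ?_
    rintro ⟨h1, h2⟩
    exact hT ⟨map_mem_im.2 h1, by rw [Finset.card_map]; exact h2⟩
  · exact ext_not f c h

theorem iso_im (f : V ↪o W) (D : Set (Finset V)) (i : ℕ) : HIso F (im f.toEmbedding D) i D i := by
  refine ⟨pull f.toEmbedding, ?_, ?_, ?_⟩
  · rintro c ⟨h1, h2⟩
    refine ⟨sup_pull h1, fun s hs => ?_⟩
    rw [← bd_map f (sup_im_zero h1)]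
    exact h2 _ (map_mem_im.2 hs)
  · rintro c ⟨h1, h2⟩
    constructor
    · rintro ⟨e, h3, h4⟩
      refine ⟨ext f.toEmbedding e, sup_ext h3, ?_⟩
      rintro T ⟨s, hs, rfl⟩
      rw [bd_map f (sup_im_zero (sup_ext h3)), pull_ext, h4 s hs, pull_apply]
    · rintro ⟨e, h3, h4⟩
      refine ⟨pull f.toEmbedding e, sup_pull h3, fun s hs => ?_⟩
      rw [← bd_map f (sup_im_zero h3), h4 _ (map_mem_im.2 hs), pull_apply]
  · rintro c ⟨h1, h2⟩
    refine ⟨ext f.toEmbedding c, ⟨sup_ext h1, ?_⟩, ?_⟩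
    · rintro T ⟨s, hs, rfl⟩
      rw [bd_map f (sup_im_zero (sup_ext h1)), pull_ext, h2 s hs]
    · rw [pull_ext, sub_self]
      exact ⟨0, fun _ _ => rfl, fun T _ => by rw [map_zero]⟩

theorem up_im (f : V ↪ W) (K : Set (Finset V)) (σ : Finset V) : up (im f K) (σ.map f) = im f (up K σ) := by
  ext T
  constructor
  · rintro ⟨⟨s, hs, rfl⟩, h⟩
    exact ⟨s, ⟨hs, Finset.map_subset_map.1 h⟩, rfl⟩
  · rintro ⟨s, ⟨hs, h⟩, rfl⟩
    exact ⟨⟨s, hs, rfl⟩, Finset.map_subset_map.2 h⟩

theorem GS_im {n : ℕ} (f : V ↪o W) {K : Set (Finset V)} (h : GS F n (im f.toEmbedding K)) : GS F n K where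
  dn T hT S hS := by
    have h1 := h.dn _ (map_mem_im.2 hT) (S.map f.toEmbedding) (Finset.map_subset_map.2 hS)
    exact map_mem_im.1 h1
  top σ hσ := by
    have h1 := h.top _ (map_mem_im (f := f.toEmbedding).2 hσ)
    rw [up_im] at h1
    exact (iso_im f _ n).symm1.1 h1
  oth σ hσ i hi := by
    have h1 := h.oth _ (map_mem_im (f := f.toEmbedding).2 hσ) i hi
    rw [up_im] at h1
    exact (iso_im f _ i).symm0.1 h1

/-- the converse -/
theorem GS_im' {n : ℕ} (f : V ↪o W) {K : Set (Finset V)} (h : GS F n K) : GS F n (im f.toEmbedding K) where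
  dn := by
    rintro _ ⟨T, hT, rfl⟩ S hS
    obtain ⟨S', hS', rfl⟩ := Finset.subset_map_iff.1 hS
    exact map_mem_im.2 (h.dn T hT S' hS')
  top := by
    rintro _ ⟨σ, hσ, rfl⟩
    rw [up_im]
    exact (iso_im f _ n).symm1.2 (h.top σ hσ)
  oth := by
    rintro _ ⟨σ, hσ, rfl⟩ i hi
    rw [up_im]
    exact (iso_im f _ i).symm0.2 (h.oth σ hσ i hi)

end Pool.Agent.V8H66.GC
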