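import Pool.Agent.V8H3.GC.Defs
import Pool.Agent.V8H66.GC.Comap

/-!
# G1: homology along an order embedding
-/

set_option autoImplicit false

noncomputable section

namespace Pool.Agent.V8H66.GC

open Pool.Agent.V8H27.GC Pool.Agent.V8H3.GC

/-- (G1) homology along an order embedding -/
theorem GS_comap {F : Type} [Field F] {V W : Type} [Fintype V] [LinearOrder V] [Fintype W] [LinearOrder W] {n : ℕ}
    (f : V ↪o W) {K : Set (Finset V)} (h : GS F n (img f.toEmbedding K)) : GS F n K :=
  GS_im f h

/-- the converse of (G1) -/
theorem GS_img {F : Type} [Field F] {V W : Type} [Fintype V] [LinearOrder V] [Fintype W] [LinearOrder W] {n : ℕ}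
    (f : V ↪o W) {K : Set (Finset V)} (h : GS F n K) : GS F n (img f.toEmbedding K) :=
  GS_im' f h

end Pool.Agent.V8H66.GC
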